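import Pool.Agent.H42.Osc2

open Cardinal Pool.Agent.H42.ZF

/-- It is consistent that the oscillation reaping number is below the covering number of the
null ideal. -/
theorem Pool.Agent.Results.MP_177d78_lc.No.result :
    ∃ (M : Type 1) (E : M → M → Prop), ZFC E ∧ ∃ w F, IsOmega E w ∧ OscReap E F w ∧
      ∀ D, NullCov E D w → ¬∃ j, Inj E j D F := by
  let L := (Order.succ 𝔠 : Cardinal.{0}).out
  obtain ⟨U, -⟩ := ex_ult (P := Rand (coin L)) ⟨Set.univ, .univ, by simp⟩
  exact ⟨_, E U, M_zfc U, _, _, isOmega_omegaN, reap U,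
    cov (by rw [mk_out]; exact Order.lt_succ _) U⟩
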